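import Pool.Agent.Helper49.LC.St

/-! Module KNB of project LC. -/

set_option autoImplicit false

open scoped ContDiff

namespace Pool.Agent.Helper7.LC

open Pool.Agent.Helper14.LK Pool.Agent.Helper49.LC

variable {n : ℕ}

private theorem nrm (x c : EE n) : ‖((x, 0) : WW n) - (c, 0)‖ = ‖x - c‖ := by
  rw [Prod.mk_sub_mk, sub_zero, Prod.norm_def]
  simp

/-! ### copies -/

private theorem pc_hasFDerivAt {ι : EE n → WW n} (hι : ContDiff ℝ ∞ ι) (a : EE n) {s : ℝ}
    (hs : 0 < s) (x : EE n) :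
    HasFDerivAt (pc a s ι) (fderiv ℝ ι (s⁻¹ • (x - a))) x := by
  have h1 : HasFDerivAt ι (fderiv ℝ ι (s⁻¹ • (x - a))) (s⁻¹ • (x - a)) :=
    (hι.differentiable (by simp) _).hasFDerivAt
  have h2 : HasFDerivAt (fun y : EE n => s⁻¹ • (y - a))
      (s⁻¹ • ContinuousLinearMap.id ℝ (EE n)) x :=
    ((hasFDerivAt_id x).sub_const a).const_smul s⁻¹
  have h3 := ((HasFDerivAt.comp x h1 h2).const_smul s).const_add ((a, 0) : WW n)
  have h4 : s • (fderiv ℝ ι (s⁻¹ • (x - a))).comp (s⁻¹ • ContinuousLinearMap.id ℝ (EE n)) =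
      fderiv ℝ ι (s⁻¹ • (x - a)) := by
    ext1 u
    simp only [ContinuousLinearMap.smul_apply, ContinuousLinearMap.comp_apply,
      ContinuousLinearMap.id_apply, map_smul]
    rw [smul_smul, mul_inv_cancel₀ hs.ne', one_smul]
  rw [h4] at h3
  exact h3

private theorem pc_fderiv {ι : EE n → WW n} (hι : ContDiff ℝ ∞ ι) (a : EE n) {s : ℝ}
    (hs : 0 < s) (x : EE n) : fderiv ℝ (pc a s ι) x = fderiv ℝ ι (s⁻¹ • (x - a)) :=
  (pc_hasFDerivAt hι a hs x).fderiv

private theorem pc_norm (a c x : EE n) {s : ℝ} (hs : 0 < s) :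
    s * ‖s⁻¹ • (x - a) - c‖ = ‖x - (a + s • c)‖ := by
  have h : x - (a + s • c) = s • (s⁻¹ • (x - a) - c) := by
    rw [smul_sub, smul_smul, mul_inv_cancel₀ hs.ne', one_smul]
    abel
  rw [h, norm_smul, Real.norm_of_nonneg hs.le]

private theorem kn_pc {ι : EE n → WW n} {c : EE n} (a : EE n) {s R : ℝ} (h : Kn ι c R)
    (hs : 0 < s) : Kn (pc a s ι) (a + s • c) (s * R) where
  pos := mul_pos hs h.pos
  sm := by
    unfold pc
    exact contDiff_const.add ((h.sm.comp
      ((contDiff_id.sub contDiff_const).const_smul s⁻¹)).const_smul s)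
  iso := fun x u v => by
    rw [pc_fderiv h.sm a hs]
    exact h.iso _ u v
  imm := fun x u hu => by
    rw [pc_fderiv h.sm a hs] at hu
    exact h.imm _ u hu
  inj := fun x y hxy => by
    have h1 : s • ι (s⁻¹ • (x - a)) = s • ι (s⁻¹ • (y - a)) := add_left_cancel hxy
    have h2 : ι (s⁻¹ • (x - a)) = ι (s⁻¹ • (y - a)) := smul_right_injective _ hs.ne' h1
    have h3 : x - a = y - a := smul_right_injective _ (inv_ne_zero hs.ne') (h.inj h2)
    exact sub_left_injective h3
  far := fun x hx => by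
    have h1 : R ≤ ‖s⁻¹ • (x - a) - c‖ := by
      rw [← pc_norm a c x hs] at hx
      exact le_of_mul_le_mul_left hx hs
    unfold pc
    rw [h.far _ h1, Prod.smul_mk, smul_smul, mul_inv_cancel₀ hs.ne', one_smul, smul_zero,
      Prod.mk_add_mk, add_zero, add_sub_cancel]
  near := fun x hx => by
    have h1 : ‖s⁻¹ • (x - a) - c‖ ≤ R := by
      rw [← pc_norm a c x hs] at hx
      exact le_of_mul_le_mul_left hx hs
    have h2 := h.near _ h1
    have h3 : pc a s ι x - (a + s • c, 0) = s • (ι (s⁻¹ • (x - a)) - (c, 0)) := by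
      have h4 : ((a + s • c, 0) : WW n) = (a, 0) + s • ((c, 0) : WW n) := by
        rw [Prod.smul_mk, smul_zero, Prod.mk_add_mk, add_zero]
      unfold pc
      rw [h4, add_sub_add_left_eq_sub, ← smul_sub]
    rw [h3, norm_smul, Real.norm_of_nonneg hs.le]
    exact mul_le_mul_of_nonneg_left h2 hs.le

private theorem range_pc (ι : EE n → WW n) (a : EE n) {s : ℝ} (hs : 0 < s) :
    Set.range (pc a s ι) = tm a s '' Set.range ι := by
  ext w
  constructor
  · rintro ⟨x, rfl⟩
    exact ⟨ι (s⁻¹ • (x - a)), ⟨_, rfl⟩, rfl⟩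
  · rintro ⟨_, ⟨y, rfl⟩, rfl⟩
    refine ⟨a + s • y, ?_⟩
    unfold pc tm
    rw [add_sub_cancel_left, smul_smul, inv_mul_cancel₀ hs.ne', one_smul]

/-! ### sums -/

private theorem su_left {α β : EE n → WW n} {x : EE n} (h : β x = (x, 0)) :
    su α β x = α x := by
  unfold su
  rw [h, add_sub_cancel_right]

private theorem su_right {α β : EE n → WW n} {x : EE n} (h : α x = (x, 0)) :
    su α β x = β x := by
  unfold su
  rw [h, add_sub_cancel_left]

private theorem sep {c c' : EE n} {R R' : ℝ} (h : R + R' < ‖c - c'‖) (x : EE n) :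
    R < ‖x - c‖ ∨ R' < ‖x - c'‖ := by
  by_contra hcon
  push Not at hcon
  have h1 : c - c' = (x - c') - (x - c) := by abel
  have h2 := norm_sub_le (x - c') (x - c)
  rw [← h1] at h2
  linarith [hcon.1, hcon.2]

/-- outside of its ball a knot is the plane -/
private theorem far_lt {α : EE n → WW n} {c : EE n} {R : ℝ} (h : Kn α c R) {x : EE n}
    (hx : R < ‖x - c‖) : α x = (x, 0) := h.far x hx.le

private theorem norm_lt_of {α : EE n → WW n} {c : EE n} {R : ℝ} (h : Kn α c R) {x : EE n}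
    (hx : R < ‖α x - (c, 0)‖) : R < ‖x - c‖ := by
  by_contra hcon
  push Not at hcon
  exact absurd (h.near x hcon) (not_le.2 hx)

private theorem norm_le_of {α : EE n → WW n} {c : EE n} {R : ℝ} (h : Kn α c R) {x : EE n}
    (hx : ‖α x - (c, 0)‖ ≤ R) : ‖x - c‖ ≤ R := by
  by_contra hcon
  push Not at hcon
  rw [far_lt h hcon, nrm] at hx
  linarith

/-- the position of the values of the sum relative to the second ball -/
private theorem su_ball {α β : EE n → WW n} {c c' : EE n} {R R' : ℝ} (hα : Kn α c R)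
    (hβ : Kn β c' R') (h : R + R' < ‖c - c'‖) (x : EE n) :
    (‖x - c'‖ ≤ R' → su α β x = β x ∧ ‖su α β x - (c', 0)‖ ≤ R') ∧
      (R' < ‖x - c'‖ → su α β x = α x ∧ R' < ‖su α β x - (c', 0)‖) := by
  constructor
  · intro hx
    have h1 : R < ‖x - c‖ := (sep h x).resolve_right (not_lt.2 hx)
    have h2 : su α β x = β x := su_right (far_lt hα h1)
    exact ⟨h2, by rw [h2]; exact hβ.near x hx⟩
  · intro hx
    have h2 : su α β x = α x := su_left (far_lt hβ hx)
    refine ⟨h2, ?_⟩
    rw [h2]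
    rcases le_or_gt ‖x - c‖ R with h3 | h3
    · have h4 := hα.near x h3
      have h5 : ((c, 0) : WW n) - (c', 0) = (α x - (c', 0)) - (α x - (c, 0)) := by abel
      have h6 := norm_sub_le (α x - (c', 0)) (α x - (c, 0))
      rw [← h5, nrm] at h6
      linarith
    · rw [far_lt hα h3, nrm]
      exact hx

private theorem kn_su {α β : EE n → WW n} {c c' c'' : EE n} {R R' R'' : ℝ} (hα : Kn α c R)
    (hβ : Kn β c' R') (h : R + R' < ‖c - c'‖) (h1 : ‖c - c''‖ + R ≤ R'')
    (h2 : ‖c' - c''‖ + R' ≤ R'') : Kn (su α β) c'' R'' := by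
  have hder : ∀ x, fderiv ℝ (su α β) x = fderiv ℝ α x ∨ fderiv ℝ (su α β) x = fderiv ℝ β x := by
    intro x
    rcases sep h x with hx | hx
    · right
      apply Filter.EventuallyEq.fderiv_eq
      have ho : IsOpen {y : EE n | R < ‖y - c‖} :=
        isOpen_lt continuous_const (continuous_id.sub continuous_const).norm
      filter_upwards [ho.mem_nhds hx] with y hy
      exact su_right (far_lt hα hy)
    · left
      apply Filter.EventuallyEq.fderiv_eq
      have ho : IsOpen {y : EE n | R' < ‖y - c'‖} :=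
        isOpen_lt continuous_const (continuous_id.sub continuous_const).norm
      filter_upwards [ho.mem_nhds hx] with y hy
      exact su_left (far_lt hβ hy)
  refine ⟨?_, ?_, ?_, ?_, ?_, ?_, ?_⟩
  · have := hα.pos
    have := norm_nonneg (c - c'')
    linarith
  · unfold su
    exact (hα.sm.add hβ.sm).sub (contDiff_id.prodMk contDiff_const)
  · intro x u v
    rcases hder x with hd | hd
    · rw [hd]; exact hα.iso x u v
    · rw [hd]; exact hβ.iso x u v
  · intro x u hu
    rcases hder x with hd | hd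
    · rw [hd] at hu; exact hα.imm x u hu
    · rw [hd] at hu; exact hβ.imm x u hu
  · intro x y hxy
    obtain ⟨x1, x2⟩ := su_ball hα hβ h x
    obtain ⟨y1, y2⟩ := su_ball hα hβ h y
    rcases le_or_gt ‖x - c'‖ R' with hx | hx
    · rcases le_or_gt ‖y - c'‖ R' with hy | hy
      · apply hβ.inj
        rw [← (x1 hx).1, ← (y1 hy).1, hxy]
      · exfalso
        have e1 := (x1 hx).2
        have e2 := (y2 hy).2
        rw [hxy] at e1
        linarith
    · rcases le_or_gt ‖y - c'‖ R' with hy | hy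
      · exfalso
        have e1 := (x2 hx).2
        have e2 := (y1 hy).2
        rw [hxy] at e1
        linarith
      · apply hα.inj
        rw [← (x2 hx).1, ← (y2 hy).1, hxy]
  · intro x hx
    have e1 : R ≤ ‖x - c‖ := by
      have e3 : x - c'' = (x - c) + (c - c'') := by abel
      have e4 := norm_add_le (x - c) (c - c'')
      rw [← e3] at e4
      linarith
    have e2 : R' ≤ ‖x - c'‖ := by
      have e3 : x - c'' = (x - c') + (c' - c'') := by abel
      have e4 := norm_add_le (x - c') (c' - c'')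
      rw [← e3] at e4
      linarith
    rw [su_left (hβ.far x e2), hα.far x e1]
  · intro x hx
    have tri : ∀ (w : WW n) (d : EE n), ‖w - (c'', 0)‖ ≤ ‖w - (d, 0)‖ + ‖d - c''‖ := by
      intro w d
      have e1 : w - (c'', 0) = (w - (d, 0)) + (((d, 0) : WW n) - (c'', 0)) := by abel
      rw [e1]
      refine (norm_add_le _ _).trans ?_
      rw [nrm]
    rcases le_or_gt ‖x - c'‖ R' with hx' | hx'
    · have e1 := ((su_ball hα hβ h x).1 hx').2
      have e2 := tri (su α β x) c'
      linarith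
    · have e1 := ((su_ball hα hβ h x).2 hx').1
      rcases le_or_gt ‖x - c‖ R with h3 | h3
      · have e2 := tri (α x) c
        have e3 := hα.near x h3
        rw [e1]
        linarith
      · rw [e1, far_lt hα h3, nrm]
        exact hx

private theorem mem_su {α β : EE n → WW n} {c c' : EE n} {R R' : ℝ} (hα : Kn α c R)
    (hβ : Kn β c' R') (h : R + R' < ‖c - c'‖) (w : WW n) : w ∈ Set.range (su α β) ↔
      (‖w - (c, 0)‖ ≤ R ∧ w ∈ Set.range α) ∨ (‖w - (c', 0)‖ ≤ R' ∧ w ∈ Set.range β) ∨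
      (R < ‖w - (c, 0)‖ ∧ R' < ‖w - (c', 0)‖ ∧ w.2 = 0) := by
  constructor
  · rintro ⟨x, rfl⟩
    rcases le_or_gt ‖x - c'‖ R' with hx | hx
    · obtain ⟨e1, e2⟩ := (su_ball hα hβ h x).1 hx
      exact Or.inr (Or.inl ⟨e2, x, e1.symm⟩)
    · have e1 := ((su_ball hα hβ h x).2 hx).1
      rcases le_or_gt ‖x - c‖ R with h3 | h3
      · left
        rw [e1]
        exact ⟨hα.near x h3, x, rfl⟩
      · right; right
        rw [e1, far_lt hα h3, nrm, nrm]
        exact ⟨h3, hx, rfl⟩
  · rintro (⟨hw, x, rfl⟩ | ⟨hw, x, rfl⟩ | ⟨h1, h2, h3⟩)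
    · have e1 := norm_le_of hα hw
      have e2 : R' < ‖x - c'‖ := (sep h x).resolve_left (not_lt.2 e1)
      exact ⟨x, su_left (far_lt hβ e2)⟩
    · have e1 := norm_le_of hβ hw
      have e2 : R < ‖x - c‖ := (sep h x).resolve_right (not_lt.2 e1)
      exact ⟨x, su_right (far_lt hα e2)⟩
    · have hw : w = (w.1, 0) := Prod.ext rfl h3
      rw [hw, nrm] at h1 h2
      refine ⟨w.1, ?_⟩
      rw [su_left (far_lt hβ h2), far_lt hα h1]
      exact hw.symm

private theorem mem_kn {α : EE n → WW n} {c : EE n} {R : ℝ} (hα : Kn α c R) (w : WW n)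
    (hw : R < ‖w - (c, 0)‖) : w ∈ Set.range α ↔ w.2 = 0 := by
  constructor
  · rintro ⟨x, rfl⟩
    rw [far_lt hα (norm_lt_of hα hw)]
  · intro h3
    have hw' : w = (w.1, 0) := Prod.ext rfl h3
    rw [hw', nrm] at hw
    exact ⟨w.1, by rw [far_lt hα hw]; exact hw'.symm⟩

private theorem kn_std {ι : EE n → WW n} {c : EE n} {R : ℝ} (h : Kn ι c R) : StdInfty ι := by
  refine ⟨R + ‖c‖, fun x hx => h.far x ?_⟩
  have h1 := norm_add_le (x - c) c
  rw [sub_add_cancel] at h1
  linarith

private theorem kn_of_std {ι : EE n → WW n} (h1 : ContDiff ℝ ∞ ι) (h2 : Isotropic ι)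
    (h3 : Immersive ι) (h4 : Function.Injective ι) (h5 : StdInfty ι) :
    ∃ R : ℝ, ∀ R' : ℝ, R ≤ R' → Kn ι 0 R' := by
  obtain ⟨R₀, hR₀⟩ := h5
  obtain ⟨B, hB⟩ := (isCompact_closedBall (0 : EE n) |R₀|).exists_bound_of_continuousOn
    h1.continuous.continuousOn
  refine ⟨|R₀| + |B| + 1, fun R' hR' => ?_⟩
  have e1 := abs_nonneg R₀
  have e2 := abs_nonneg B
  have e3 := le_abs_self R₀
  have e4 := le_abs_self B
  refine ⟨by linarith, h1, h2, h3, h4, ?_, ?_⟩
  · intro x hx
    rw [sub_zero] at hx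
    exact hR₀ x (by linarith)
  · intro x hx
    rcases le_or_gt ‖x‖ |R₀| with hx0 | hx0
    · have e5 := hB x (mem_closedBall_zero_iff.2 hx0)
      have e6 : ι x - ((0 : EE n), (0 : EE n)) = ι x := sub_zero (ι x)
      rw [e6]
      linarith
    · rw [hR₀ x (by linarith), nrm]
      exact hx

theorem hKNB : StKNB :=
  ⟨fun _ _ h1 h2 h3 h4 h5 => kn_of_std h1 h2 h3 h4 h5,
    fun _ _ _ a _ _ h hs => kn_pc a h hs,
    fun _ ι a _ hs => range_pc ι a hs,
    fun _ _ _ _ _ _ _ _ _ hα hβ h h1 h2 => kn_su hα hβ h h1 h2,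
    fun _ _ _ _ _ _ _ hα hβ h w => mem_su hα hβ h w,
    fun _ _ _ _ hα w hw => mem_kn hα w hw,
    fun _ _ _ _ h => kn_std h⟩

end Pool.Agent.Helper7.LC
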